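import Mathlib
import Pool.Agent.N70.PP.Voc
import Pool.Agent.N70.PP.VocB

/-!
# Alternating fibre powers over `F_p(X)`, `p` odd

Let `p` be an odd prime and `α : B → W` a surjection of finite groups whose kernel is perfect; no
realization of `B` is assumed. For a homomorphism `χ : W → {1, -1}` let `TwPow α χ n` be the group
of all `(x, w)`, `x` in the wreath product `B ≀ S_n`, `w` in `W`, such that all coordinates of `x`
are mapped to `w` by `α` and the sign of the permutation of `x` is `χ w`. It is an extension of `W`
by `(ker α) ≀ A_n`.

1. For infinitely many `n` the group `TwPow α 1 n` occurs over `F_p(X)` if and only if `W` does, and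
   all embedding problems with the projection `TwPow α 1 n → W`, over any field of characteristic
   `p`, have regular solutions (and proper ones if the field is Hilbertian, e.g. `F_p(X)`).
2. For all large primes `q ≡ -1` modulo `12 r p` (`r` odd, `r ≥ ((72 |ker α| + 2)!) ^ 3`),
   `n = q + 6 r p + 1` and all characters `χ`: the group `TwPow α χ n` occurs over `F_p(X)` if some
   subgroup `D` of `B` with `α(D) = W` does; the embedding problems with the projection to `W` are
   solvable if those with `α` are weakly solvable; in particular the conclusions of 1. hold for all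
   `χ` if `α` splits.

The same for `k(X)`, `k` any field of characteristic `p`, for all Hilbertian fields of characteristic
`p`, and for regular realizations over all fields of characteristic `p`; `n` does not depend on them.
-/

set_option autoImplicit false

namespace Pool.Agent.Results.MP_7f581e_nt.AlternatingFibrePowers

open Pool.Agent.N70.EP.Voc Pool.Agent.N70.PP.Voc

/-- If an embedding problem with `α : B → W = Gal(L/K)`, `K` a field of characteristic `p`, has a
weak solution, then the one with `π : E → W = Gal(L/K)` is solvable. -/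
def SolvableIfWeak (p : ℕ) {B E W : Type} [Group B] [Group E] [Group W] (α : B →* W)
    (π : E →* W) : Prop :=
  ∀ (K L : Type) [Field K] [CharP K p] [Field L] [Algebra K L] [FiniteDimensional K L]
    [IsGalois K L] (ε : (L ≃ₐ[K] L) ≃* W), WeakSolutionOver (ε.symm.toMonoidHom.comp α) K →
    Solvable (ε.symm.toMonoidHom.comp π)

/-- The first theorem for the number `n`. -/
def First (p : ℕ) {B W : Type} [Group B] [Group W] (α : B →* W) (χ : W →* ℤˣ) (n : ℕ) : Prop :=
  OccursIff p (TwPow α χ n) W ∧ SolvableAll p (twPr α χ n)

/-- The second theorem for the number `n`. -/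
def Second (p : ℕ) {B W : Type} [Group B] [Group W] (α : B →* W) (χ : W →* ℤˣ) (n : ℕ) : Prop :=
  (∀ D : Subgroup B, (∀ w : W, ∃ d ∈ D, α d = w) → OccursIf p (TwPow α χ n) D) ∧
    SolvableIfWeak p α (twPr α χ n) ∧ ((∃ s : W →* B, ∀ w, α (s w) = w) → First p α χ n)

theorem result (p : ℕ) [Fact p.Prime] (hp : p ≠ 2) (B W : Type) [Group B] [Finite B] [Group W]
    [Finite W] (α : B →* W) (hα : Function.Surjective α) (hperf : commutator α.ker = ⊤) :
    (∀ n₀ : ℕ, ∃ n ≥ n₀, First p α 1 n) ∧
    ∀ r : ℕ, Odd r → ((72 * Nat.card α.ker + 2).factorial) ^ 3 ≤ r →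
      ∃ q₀ : ℕ, ∀ q ≥ q₀, q.Prime → 12 * r * p ∣ q + 1 → ∀ χ : W →* ℤˣ,
        Second p α χ (q + 6 * r * p + 1) :=
  ⟨Pool.Agent.N70.PP.fib_one hp α hα hperf, Pool.Agent.N70.PP.fib_all hp α hα hperf⟩

end Pool.Agent.Results.MP_7f581e_nt.AlternatingFibrePowers
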