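import Mathlib
import Pool.Agent.N70.PP.VocK
import Pool.Agent.N70.PP.VocKB

/-!
# Normal subgroups `G ≀ A_n` over `F_p(X)`, `p` odd

Let `p` be an odd prime. Below, `G` is a nontrivial finite perfect group with trivial centre (no
realization of `G` is assumed), and `n = q + 6 r p + 1` where `r` is odd, `r ≥ ((72 |G| + 2)!) ^ 3`
and `q` is a prime with `q ≡ -1` modulo `12 r p`, larger than a bound depending on `G` and `r` only
(there are infinitely many such `n`). `X` is a group with a normal subgroup `N` of finite index, the
extension `1 → N → X → X / N → 1` is arbitrary, and `P` is any normal `p`-subgroup of `X / N`.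

1. Let `N ≃ G ≀ A_n`, `Y = (X / N) / P`. There are a finite group `Q` and a surjection `Q → Y` whose
   kernel is contained in the Frattini subgroup of `Q`, nilpotent, of order prime to `p` and dividing
   `|G|` (with prime divisors dividing `|Y|`), such that `X` occurs over `F_p(X)` if `Q` does. So if
   `Y` is solvable, `X` occurs over `F_p(X)` if all finite solvable groups do (the theorem of
   Shafarevich). If no prime other than `p` divides both `|Y|` and `|G|`, then `X` occurs over
   `F_p(X)` if and only if `Y` does. If all Sylow subgroups of `Y` are cyclic, `X` occurs over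
   `F_p(X)`. All embedding problems with kernel `G ≀ A_n` over fields with projective absolute Galois
   group (e.g. finite fields) have regular solutions.
2. Let `T` be in the smallest class containing the `G ≀ A_n` with `Inn G` complemented in `Aut G`, the
   `G ≀ S_n` (`G` centreless, `Inn G` complemented, not necessarily perfect, `n ≥ ((3|G|+2)!)^3`), the
   complete groups which occur regularly over `F_p`, and closed under direct products, direct
   factors, characteristic extensions and `T ↦ T ≀ S_n`. If `N ≃ T`, then `X` occurs over `F_p(X)` if
   and only if `(X / N) / P` does; and all embedding problems with kernel `T` over fields `K` of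
   characteristic `p` have regular solutions over `K(t)`, and proper ones if `K` is Hilbertian.

The same for `k(X)`, `k` any field of characteristic `p`, for all Hilbertian fields of characteristic
`p`, and for regular realizations over all fields of characteristic `p`.
-/

set_option autoImplicit false

namespace Pool.Agent.Results.MP_7f581e_nt.AlternatingKernels

open Pool.Agent.N70.EP.Voc Pool.Agent.N70.PP.Voc

theorem result (p : ℕ) [Fact p.Prime] (hp : p ≠ 2) : ∃ κ : (∀ (G : Type) [Group G], ℕ → ℕ),
    (∀ (G : Type) [Group G], Centreless G → commutator G = ⊤ → ∀ n ∈ Numbers κ p G,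
      GeneralTheorem p G (AltWreath G n)) ∧
    ∀ (T : Type) [Group T], Kernels κ p T → KernelTheorem p T := by
  obtain ⟨κ, hκ⟩ := Pool.Agent.N70.PP.exists_kappa p hp
  refine ⟨κ, fun G _ hG hP n hn => Pool.Agent.N70.PP.generalTheorem_of G hG n (hκ G hG hP n hn),
    fun T _ hT => ?_⟩
  obtain ⟨h1, -, h2⟩ := Pool.Agent.N70.PP.kernels_main κ hκ T hT
  exact Pool.Agent.N70.PP.kernelTheorem_of h1 h2

end Pool.Agent.Results.MP_7f581e_nt.AlternatingKernels
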