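import Mathlib
import Pool.Prelude.Def_F_b1b78ff3
import Pool.Agent.N600.ZQ.P2

/-!
# `F_p(X)`: groups with a normal subgroup `∏ G_i ≀ S_{n_i}`

Let `p` be a prime, `G_i` finitely many ARBITRARY nontrivial finite groups with trivial centre,
`n_i ≥ ((3 |G_i| + 2)!)^3`, `X` a group with a normal subgroup `N` of finite index which is
isomorphic to the direct product of the wreath products `G_i ≀ S_{n_i}` (no condition on the
extension `1 → N → X → X / N → 1`, which may permute the factors and need not split), and `P` any
normal `p`-subgroup of `X / N` (for example the trivial one, or the largest one).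

1. There are a finite group `Q` and a surjection `Q → (X / N) / P` whose kernel is contained in the
   Frattini subgroup of `Q`, nilpotent, of order prime to `p` and divisible only by primes which
   divide both the order of `(X / N) / P` and one of the `|G_i|`, such that `X` occurs over `κ(X)`
   (`κ` a finite field of characteristic `p`, for example `F_p`) if `Q` does; the same for every
   Hilbertian field of characteristic `p`, and for regular extensions of `K(t)`, `K` any field of
   characteristic `p`.
2. If `X / N` is solvable, so is `Q`: then `X` occurs over `κ(X)` as soon as all finite solvable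
   groups do, which is the theorem of Shafarevich.
3. If no prime other than `p` divides both the order of `(X / N) / P` and one of the `|G_i|`, then
   `X` occurs over `κ(X)` if and only if `(X / N) / P` does.
4. If all Sylow subgroups of `(X / N) / P` are cyclic (for example if `X / N` is a `p`-group, a
   cyclic group, a group of squarefree order, or a Borel subgroup of `SL_2` in characteristic `p`),
   then `X` occurs over `κ(X)` for every finite field `κ` of characteristic `p`, over every
   Hilbertian field of characteristic `p`, and regularly over every field of characteristic `p`.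
-/

set_option autoImplicit false

open Nfff32c05
open Pool.Agent.H391R2 (Wr)
open Pool.Agent.H391R2.T4 (HilbField)
open Pool.Agent.TH444.TW (RegularOver)

namespace Pool.Agent.Results.MP_7f581e_nt.DefiningPrimeQuotients

/-- `π` is a Frattini cover: it is surjective and its kernel is contained in the Frattini subgroup,
the intersection of the maximal subgroups. -/
def FrattiniCover {Q Y : Type} [Group Q] [Group Y] (π : Q →* Y) : Prop :=
  Function.Surjective π ∧ π.ker ≤ frattini Q

/-- `X` occurs over `κ(X)` for every finite field `κ` of characteristic `p` for which `Q` does,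
over every Hilbertian field of characteristic `p` over which `Q` does, and regularly over every
field of characteristic `p` over which `Q` does. -/
def OccursIf (p : ℕ) (X Q : Type) [Group X] [Group Q] : Prop :=
  (∀ (κ : Type) [Field κ] [Finite κ] [CharP κ p],
    IsRealizable (RatFunc κ) Q → IsRealizable (RatFunc κ) X) ∧
  (∀ (K : Type) [Field K] [CharP K p], HilbField K → IsRealizable K Q → IsRealizable K X) ∧
  (∀ (K : Type) [Field K] [CharP K p], RegularOver K Q → RegularOver K X)

/-- `X` and `Y` occur over the same fields of the three kinds. -/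
def OccursIff (p : ℕ) (X Y : Type) [Group X] [Group Y] : Prop :=
  (∀ (κ : Type) [Field κ] [Finite κ] [CharP κ p],
    IsRealizable (RatFunc κ) X ↔ IsRealizable (RatFunc κ) Y) ∧
  (∀ (K : Type) [Field K] [CharP K p], HilbField K → (IsRealizable K X ↔ IsRealizable K Y)) ∧
  (∀ (K : Type) [Field K] [CharP K p], RegularOver K X ↔ RegularOver K Y)

/-- `X` occurs over all fields of the three kinds. -/
def Occurs (p : ℕ) (X : Type) [Group X] : Prop :=
  (∀ (κ : Type) [Field κ] [Finite κ] [CharP κ p], IsRealizable (RatFunc κ) X) ∧
  (∀ (K : Type) [Field K] [CharP K p], HilbField K → IsRealizable K X) ∧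
  (∀ (K : Type) [Field K] [CharP K p], RegularOver K X)

/-- The reduction to a Frattini cover `Q` of `Y`. -/
def CoverTheorem (p : ℕ) {I : Type} (G : I → Type) (X Y : Type) [Group X] [Group Y] : Prop :=
  ∃ (Q : Type) (_ : Group Q) (_ : Finite Q) (π : Q →* Y), FrattiniCover π ∧
    Group.IsNilpotent π.ker ∧ ¬ p ∣ Nat.card π.ker ∧
    (∀ l : ℕ, l.Prime → l ∣ Nat.card π.ker → l ∣ Nat.card Y ∧ ∃ i, l ∣ Nat.card (G i)) ∧
    (Group.IsSolvable Y → Group.IsSolvable Q) ∧ (Group.IsNilpotent Y → Group.IsNilpotent Q) ∧
    OccursIf p X Q

/-- All finite solvable groups occur over `K`: this is the theorem of Shafarevich if `K` is a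
global field. -/
def SolvableOccur (K : Type) [Field K] : Prop :=
  ∀ (Q : Type) [Group Q] [Finite Q], Group.IsSolvable Q → IsRealizable K Q

end Pool.Agent.Results.MP_7f581e_nt.DefiningPrimeQuotients

open Pool.Agent.Results.MP_7f581e_nt.DefiningPrimeQuotients in
theorem Pool.Agent.Results.MP_7f581e_nt.DefiningPrimeQuotients.result :
    ∀ (p : ℕ) [Fact p.Prime] (I : Type) [Finite I] (G : I → Type) [∀ i, Group (G i)]
      [∀ i, Finite (G i)] [∀ i, Nontrivial (G i)] (n : I → ℕ),
      (∀ i, Subgroup.center (G i) = ⊥) →
      (∀ i, ((3 * Nat.card (G i) + 2).factorial) ^ 3 ≤ n i) →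
      ∀ (X : Type) [Group X] (N : Subgroup X) [N.Normal],
        Nonempty (N ≃* ∀ i, Wr (G i) (n i)) → Finite (X ⧸ N) →
        ∀ (P : Subgroup (X ⧸ N)) [P.Normal], IsPGroup p P →
        CoverTheorem p G X ((X ⧸ N) ⧸ P) ∧
        (Group.IsSolvable (X ⧸ N) → ∀ (κ : Type) [Field κ] [Finite κ] [CharP κ p],
          SolvableOccur (RatFunc κ) → IsRealizable (RatFunc κ) X) ∧
        ((∀ l : ℕ, l.Prime → l ≠ p → l ∣ Nat.card ((X ⧸ N) ⧸ P) → ∀ i, ¬ l ∣ Nat.card (G i)) →
          OccursIff p X ((X ⧸ N) ⧸ P)) ∧
        (IsZGroup ((X ⧸ N) ⧸ P) → Occurs p X) := by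
  intro p _ I _ G _ _ _ n hZ hn X _ N _ hN hfin P _ hP
  obtain ⟨Q, i1, i2, π, hπ, h1, h2, h3, hQ⟩ :=
    Pool.Agent.N600.ZQ.fratp_main hZ hn X N hN hfin p P hP
  refine ⟨⟨Q, i1, i2, π, hπ, h1, h2, h3, hπ.solvable, hπ.nilpotent, hQ⟩, ?_, ?_, ?_⟩
  · intro hs κ _ _ _ hK
    have hs' : Group.IsSolvable ((X ⧸ N) ⧸ P) := inferInstance
    exact hQ.1 κ (hK Q (hπ.solvable hs'))
  · intro hcop
    exact Pool.Agent.N600.ZQ.copp_main hZ hn X N hN hfin p P hP hcop
  · intro hz
    exact Pool.Agent.N600.ZQ.zp_main hZ hn X N hN hfin p P hP
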