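import Mathlib
import Pool.Agent.N70.PP.VocK
import Pool.Agent.N70.PP.Sy

/-!
# Symmetric fibre powers over `F_p(X)`, every prime `p`, every kernel

Let `p` be any prime (also `2`) and `A : B → W` ANY surjection of finite groups, split or not, with
any kernel. The symmetric fibre power `S_n(A) = SymEP A n` is the group of all `(x, w)`, `x` in the
wreath product `B ≀ S_n`, `w` in `W`, such that all coordinates of `x` are mapped to `w` by `A`. It is
an extension of `W` by `(ker A) ≀ S_n`.

1. Let `n ≥ ((3 |ker A| + 2)!)^3`. Then `S_n(A)` occurs over `F_p(X)` if some subgroup `D` of `B` with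
   `A(D) = W` does. For every normal `p`-subgroup `P` of `W` (for example the trivial one) and
   `Y = W / P` there are a finite group `Q` and a surjection `Q → Y` whose kernel is contained in the
   Frattini subgroup of `Q`, nilpotent, of order prime to `p` and dividing `|ker A|`, such that
   `S_n(A)` occurs over `F_p(X)` if `Q` does. So `S_n(A)` occurs over `F_p(X)` if `Y` is solvable and
   all finite solvable groups occur (the theorem of Shafarevich). If no prime other than `p` divides
   both `|Y|` and `|ker A|`, then `S_n(A)` occurs over `F_p(X)` if and only if `Y` does. If all Sylow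
   subgroups of `Y` are cyclic, `S_n(A)` occurs over `F_p(X)`.
2. If `|W|` divides `m` and `n ≥ ((3 |K_m| + 2)!)^3`, `K_m` the kernel of `S_m(A) → W`, then
   `S_n(S_m(A) → W)` occurs over `F_p(X)` if and only if `W` does.

The same for `k(X)`, `k` any field of characteristic `p`, for all Hilbertian fields of characteristic
`p`, and for regular realizations over all fields of characteristic `p`.
-/

set_option autoImplicit false

namespace Pool.Agent.Results.MP_7f581e_nt.SymmetricFibrePowers

open Pool.Agent.H391R2.T4 (SymEP symProj)
open Pool.Agent.N70.EP.Voc Pool.Agent.N70.PP.Voc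

section defs

variable (p : ℕ) {B W : Type} [Group B] [Group W] (A : B →* W) (n : ℕ)

/-- The bound for `n`. -/
def Bound : Prop := ((3 * Nat.card A.ker + 2).factorial) ^ 3 ≤ n

/-- Realizations of subgroups `D` with `A(D) = W`. -/
def Supplements : Prop :=
  ∀ D : Subgroup B, (∀ w : W, ∃ d ∈ D, A d = w) → OccursIf p (SymEP A n) D

/-- The quotients `W / P`. -/
def Quotients : Prop :=
  ∀ (P : Subgroup W) [P.Normal], IsPGroup p P → QuotientTheorem p A.ker (SymEP A n) (W ⧸ P)

/-- The first theorem for the number `n`. -/
def First : Prop := Bound A n → Supplements p A n ∧ Quotients p A n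

/-- `S_n(A)` and `W` occur over the same fields, and the embedding problems `S_n(A) → W = Gal(L/K)`
are solvable. -/
def Equivalent : Prop := OccursIff p (SymEP A n) W ∧ SolvableAll p (symProj A n)

/-- The same for all large `n`. -/
def EquivalentAll : Prop := ∀ n : ℕ, Bound A n → Equivalent p A n

/-- The second theorem. -/
def Second : Prop := ∀ m : ℕ, Nat.card W ∣ m → EquivalentAll p (symProj A m)

end defs

theorem result (p : ℕ) [Fact p.Prime] (B W : Type) [Group B] [Finite B] [Group W] [Finite W]
    (A : B →* W) (hA : Function.Surjective A) : (∀ n : ℕ, First p A n) ∧ Second p A :=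
  ⟨Pool.Agent.N70.PP.sy_main p A hA, fun m hm n hn => Pool.Agent.N70.PP.sy_two p A hA m n hm hn⟩

end Pool.Agent.Results.MP_7f581e_nt.SymmetricFibrePowers
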